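import Pool.Agent.H88KTri.Three

/-!
Flips that gain a chord in common with the target, in flip graphs of k-triangulations.
-/

namespace Pool.Agent.FS.GoodFlip

open Pool.Agent.H88KTri

/-- A flip that gains a common chord can start a shortest path. -/
def Gd (n k : ℕ) : Prop :=
  ∀ (T U Y : {T : Set (ℕ × ℕ) // IsKTri n k T}) (w : (flipGraph n k).Walk T U),
    (flipGraph n k).Adj T Y → T.1 ∩ U.1 ⊂ Y.1 ∩ U.1 →
      ∃ p : (flipGraph n k).Walk Y U, p.length + 1 ≤ w.length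

theorem spec {T U Y : Set (ℕ × ℕ)} (h : Swap T Y) (hs : T ∩ U ⊂ Y ∩ U) :
    ∃ e f : ℕ × ℕ, e ∈ T ∧ e ∉ Y ∧ e ∉ U ∧ f ∈ Y ∧ f ∉ T ∧ f ∈ U ∧ (∀ x ∈ Y, x = f ∨ x ∈ T) := by
  obtain ⟨e, f, h1, h2, h3, h4, -, h6⟩ := h.spec
  obtain ⟨g, ⟨g1, g2⟩, g3⟩ := Set.exists_of_ssubset hs
  have hg : g = f := (h6 g g1).resolve_right fun h => g3 ⟨h, g2⟩
  exact ⟨e, f, h1, h4, fun h => h4 (hs.1 ⟨h1, h⟩).1, h3, h2, hg ▸ g2, h6⟩

theorem gd_zero (n : ℕ) : Gd n 0 := by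
  intro T U Y w h hs
  obtain ⟨e, f, h1, -⟩ := spec h hs
  rw [nlf_zero T.2] at h1
  exact absurd h1 (Set.notMem_empty _)

theorem gd_one (n : ℕ) : Gd n 1 := by
  intro T U Y w h hs
  obtain ⟨e, ⟨u, v⟩, -, -, -, hY, hT, hU, h6⟩ := spec h hs
  have huv : u < v := (U.2.1 _ hU).1
  have hv : v < n := (U.2.1 _ hU).2
  obtain ⟨l, hl, hR⟩ := shorter_one w.reverse huv hv hU ⟨T, w.reverse.end_mem_support, hT⟩
  rw [proj_eq Y.2 T.2 huv hv hY h6] at hR
  obtain ⟨p, hp, -⟩ := hR.to_walk U.2 Y.2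
  refine ⟨p.reverse, ?_⟩
  rw [SimpleGraph.Walk.length_reverse] at hl ⊢
  omega

theorem gd_of_tight {n k : ℕ} (ht : ∀ Y U : Set (ℕ × ℕ), IsKTri n k Y → IsKTri n k U →
    ∃ S : Finset (ℕ × ℕ), (∀ x ∈ S, x ∈ Y ∧ x ∉ U) ∧ R n k ∅ Y U S.card) : Gd n k := by
  intro T U Y w h hs
  obtain ⟨e, f, h1, h2, h3, -, -, hU, h6⟩ := spec h hs
  obtain ⟨S, hS, hR⟩ := ht Y.1 U.1 Y.2 U.2
  obtain ⟨p, hp, -⟩ := hR.to_walk Y.2 U.2
  have he : e ∉ S := fun h => h2 (hS e h).1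
  have hc := (R.of_walk (C := ∅) w (by simp)).card_le (insert e S) (by
    intro x hx
    rcases Finset.mem_insert.1 hx with rfl | hx
    · exact ⟨h1, h3⟩
    · exact ⟨(h6 x (hS x hx).1).resolve_left fun h => (hS x hx).2 (h ▸ hU), (hS x hx).2⟩)
  rw [Finset.card_insert_of_notMem he] at hc
  exact ⟨p, by omega⟩

theorem gd_tiny {n k : ℕ} (hn : n ≤ 2 * k + 2) : Gd n k := by
  refine gd_of_tight fun T U hT hU => ?_
  obtain ⟨d, hd⟩ := all_but_one hT hn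
  obtain ⟨d', hd'⟩ := all_but_one hU hn
  rcases eq_or_swap hT hU (fun x hx => hd' x (hT.1 x hx).1 (hT.1 x hx).2)
    (fun x hx => hd x (hU.1 x hx).1 (hU.1 x hx).2) with h | h
  · exact ⟨∅, by simp, h ▸ R.nil _ _ hT (Set.empty_subset _)⟩
  · obtain ⟨e, f, he, -, -, he', -, -⟩ := h.spec
    exact ⟨{e}, by simpa using ⟨he, he'⟩,
      R.cons _ _ _ _ hT (Set.empty_subset _) h (R.nil _ 0 hU (Set.empty_subset _))⟩

theorem gd_three (k : ℕ) : Gd (2 * k + 3) k := by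
  refine gd_of_tight fun T U hT hU => ?_
  obtain ⟨a, a', a'', h, rfl⟩ := exists_Tr hT
  obtain ⟨b, b', b'', h', rfl⟩ := exists_Tr hU
  exact T0 h h'

/-- A configuration that refutes the property. -/
def Bad (n k : ℕ) : Prop :=
  ∃ (T U Y : Set (ℕ × ℕ)) (f : ℕ × ℕ) (S S' : Finset (ℕ × ℕ)),
    R n k ∅ T U 4 ∧ IsKTri n k U ∧ IsKTri n k Y ∧ Swap T Y ∧ T ∩ U ⊆ Y ∧ f ∈ Y ∧ f ∈ U ∧ f ∉ T ∧
      S.card = 3 ∧ S'.card = 3 ∧ (∀ a ∈ S, a ∈ Y ∧ a ∉ U) ∧ (∀ b ∈ S', b ∈ U ∧ b ∉ Y) ∧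
      ∀ a ∈ S, ∀ b ∈ S', ¬ CrossFree k (insert b (Y \ {a}))

theorem long {n k : ℕ} {Y U : {T : Set (ℕ × ℕ) // IsKTri n k T}} (p : (flipGraph n k).Walk Y U)
    {S S' : Finset (ℕ × ℕ)} (c : S.card = 3) (c' : S'.card = 3) (h : ∀ a ∈ S, a ∈ Y.1 ∧ a ∉ U.1)
    (h' : ∀ b ∈ S', b ∈ U.1 ∧ b ∉ Y.1)
    (hn : ∀ a ∈ S, ∀ b ∈ S', ¬ CrossFree k (insert b (Y.1 \ {a}))) : 4 ≤ p.length := by
  cases p with
  | nil =>
    obtain ⟨a, ha⟩ := Finset.card_pos.1 (by omega : 0 < S.card)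
    exact absurd (h a ha).1 (h a ha).2
  | @cons _ Z _ hadj q =>
    obtain ⟨a, b, -, -, hZ⟩ := id hadj
    rw [SimpleGraph.Walk.length_cons]
    by_contra hl
    have ha : a ∈ S := by
      by_contra ha
      have := (R.of_walk (C := ∅) q (by simp)).card_le S fun x hx => ⟨by
        rw [hZ]
        exact Or.inr ⟨(h x hx).1, fun e => ha (e ▸ hx)⟩, (h x hx).2⟩
      omega
    have hb : b ∈ S' := by
      by_contra hb
      have := (R.of_walk (C := ∅) q.reverse (by simp)).card_le S' fun x hx => ⟨(h' x hx).1, by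
        rw [hZ]
        rintro (e | e)
        · exact hb (e ▸ hx)
        · exact (h' x hx).2 e.1⟩
      rw [SimpleGraph.Walk.length_reverse] at this
      omega
    exact hn a ha b hb (hZ ▸ Z.2.2.1)

theorem Bad.not {n k : ℕ} (h : Bad n k) : ¬ Gd n k := by
  obtain ⟨T, U, Y, f, S, S', hR, hU, hY, hs, h1, h2, h3, h4, c, c', m, m', hn⟩ := h
  intro hG
  obtain ⟨w, hw, -⟩ := hR.to_walk hR.left.1 hU
  obtain ⟨p, hp⟩ := hG ⟨T, hR.left.1⟩ ⟨U, hU⟩ ⟨Y, hY⟩ w hs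
    ⟨fun x hx => ⟨h1 hx, hx.2⟩, fun hh => h4 (hh ⟨h2, h3⟩).1⟩
  have := long p c c' m m' hn
  omega

theorem Bad.cone {n k : ℕ} (h : Bad n k) : Bad (n + 2) (k + 1) := by
  obtain ⟨T, U, Y, f, S, S', hR, hU, hY, hs, h1, h2, h3, h4, c, c', m, m', hn⟩ := h
  have hf := (hU.1 f h3).1
  refine ⟨H88KTri.cone n T, H88KTri.cone n U, H88KTri.cone n Y, lift f, S.image lift,
    S'.image lift, hR.cone.weaken (Set.empty_subset _), hU.cone, hY.cone,
    hs.cone hR.left.1 hY, cone_inter ▸ cone_mono h1, (lift_mem_cone hf).2 h2,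
    (lift_mem_cone hf).2 h3, fun h => h4 ((lift_mem_cone hf).1 h),
    by rw [Finset.card_image_of_injective _ lift_inj, c],
    by rw [Finset.card_image_of_injective _ lift_inj, c'], ?_, ?_, ?_⟩
  · intro x hx
    obtain ⟨a, ha, rfl⟩ := Finset.mem_image.1 hx
    have h5 := (hY.1 a (m a ha).1).1
    exact ⟨(lift_mem_cone h5).2 (m a ha).1, fun h => (m a ha).2 ((lift_mem_cone h5).1 h)⟩
  · intro x hx
    obtain ⟨a, ha, rfl⟩ := Finset.mem_image.1 hx
    have h5 := (hU.1 a (m' a ha).1).1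
    exact ⟨(lift_mem_cone h5).2 (m' a ha).1, fun h => (m' a ha).2 ((lift_mem_cone h5).1 h)⟩
  · intro x hx y hy hfree
    obtain ⟨a, ha, rfl⟩ := Finset.mem_image.1 hx
    obtain ⟨b, hb, rfl⟩ := Finset.mem_image.1 hy
    have h5 := (hY.1 a (m a ha).1).1
    have h6 := hU.1 b (m' b hb).1
    refine hn a ha b hb ((crossFree_uncone (n := n) ?_ ?_ hfree).mono ?_)
    · intro z hz
      refine Or.inr ⟨cone_mono (Set.empty_subset _) hz, fun e => ?_⟩
      rw [Set.mem_singleton_iff.1 e] at hz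
      exact (lift_mem_cone h5).1 hz
    · rintro z (rfl | hz)
      · simp only [lift]
        omega
      · exact (cone_chord hY.1 z hz.1).2
    · rintro z (rfl | hz)
      · exact ⟨h6.1, Or.inl rfl⟩
      · have h7 := (hY.1 z hz.1).1
        exact ⟨h7, Or.inr ⟨(lift_mem_cone h7).2 hz.1, fun e => hz.2 (lift_inj e)⟩⟩

/-- Add a vertex of degree four. -/
def ear (n : ℕ) (X : Set (ℕ × ℕ)) : Set (ℕ × ℕ) :=
  X ∪ {e | e.2 = n ∧ e.1 < n ∧ (e.1 ≤ 1 ∨ n ≤ e.1 + 2)}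

theorem short_mem {n x y : ℕ} {X : Set (ℕ × ℕ)} (hX : IsKTri n 2 X) (hxy : x < y) (hy : y < n)
    (h : (x = 0 ∧ y + 2 = n) ∨ (x = 1 ∧ y + 1 = n)) : (x, y) ∈ X := by
  by_contra hn
  refine hX.2.2 (x, y) hxy hy hn (crossFree_two.2 ?_)
  have hb : ∀ z ∈ insert (x, y) X, z.1 < z.2 ∧ z.2 < n := by
    rintro z (rfl | hz)
    · exact ⟨hxy, hy⟩
    · exact hX.1 z hz
  intro e he f hf g hg c1 c2 c3
  have b1 := hb e he
  have b2 := hb f hf
  have b3 := hb g hg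
  rcases he with rfl | he
  · unfold Cross at c1 c2 c3
    simp only at c1 c2
    omega
  rcases hf with rfl | hf
  · unfold Cross at c1 c2 c3
    simp only at c1 c3
    omega
  rcases hg with rfl | hg
  · unfold Cross at c1 c2 c3
    simp only at c2 c3
    omega
  exact crossFree_two.1 hX.2.1 e he f hf g hg c1 c2 c3

theorem tri_ear {n : ℕ} {X : Set (ℕ × ℕ)} (hX : IsKTri n 2 X) (hn : 5 ≤ n) :
    IsKTri (n + 1) 2 (ear n X) := by
  have h0 : ∀ e ∈ ear n X, e.1 < e.2 ∧ e.2 < n + 1 := by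
    rintro e (he | he)
    · have := hX.1 e he
      omega
    · have h1 := he.1
      have h2 := he.2.1
      omega
  refine ⟨h0, crossFree_two_sorted ?_, ?_⟩
  · intro a1 a2 a3 b1 b2 b3 m1 m2 m3 i1 i2 i3 i4 i5
    have h3 := (h0 _ m3).2
    simp only at h3
    rcases m1 with m1 | m1
    swap
    · have := m1.1
      simp only at this
      omega
    rcases m2 with m2 | m2
    swap
    · have := m2.1
      simp only at this
      omega
    rcases m3 with m3 | m3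
    swap
    · have h4 := m3.1
      have h5 := m3.2.2
      simp only at h4 h5
      omega
    exact crossFree_two.1 hX.2.1 _ m1 _ m2 _ m3 (Or.inl ⟨i1, by simp only; omega, i4⟩)
      (Or.inl ⟨by simp only; omega, i3, by simp only; omega⟩)
      (Or.inl ⟨i2, by simp only; omega, i5⟩)
  · rintro ⟨x, y⟩ hxy hy hne hfree
    simp only at hxy hy
    by_cases hyn : y = n
    · have hx : 2 ≤ x ∧ x + 3 ≤ n := by
        by_contra hc
        exact hne (Or.inr ⟨hyn, by simp only; omega, by simp only; omega⟩)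
      exact crossFree_two.1 hfree (x, y) (Or.inl rfl) (0, n - 2)
        (Or.inr (Or.inl (short_mem hX (by omega) (by omega) (by omega)))) (1, n - 1)
        (Or.inr (Or.inl (short_mem hX (by omega) (by omega) (by omega))))
        (by unfold Cross; simp only; omega) (by unfold Cross; simp only; omega)
        (by unfold Cross; simp only; omega)
    · exact hX.2.2 (x, y) hxy (by simp only; omega) (fun h => hne (Or.inl h))
        (hfree.mono (Set.insert_subset_insert Set.subset_union_left))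

theorem not_ear {n : ℕ} {X : Set (ℕ × ℕ)} {e : ℕ × ℕ} (h : e.2 < n) (he : e ∉ X) :
    e ∉ ear n X := by
  rintro (h1 | h1)
  · exact he h1
  · have := h1.1
    omega

theorem swap_ear {n : ℕ} {X Y : Set (ℕ × ℕ)} (h : Swap X Y) (hX : IsKTri n 2 X)
    (hY : IsKTri n 2 Y) : Swap (ear n X) (ear n Y) := by
  obtain ⟨e, f, he, hf, hfY, heY, h1, h2⟩ := h.spec
  refine swap_of (e := e) (f := f) (Or.inl he) (not_ear (hY.1 f hfY).2 hf) (Or.inl hfY)
    (not_ear (hX.1 e he).2 heY) ?_ ?_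
  · rintro x (hx | hx)
    · exact (h1 x hx).imp_right Or.inl
    · exact Or.inr (Or.inr hx)
  · rintro x (hx | hx)
    · exact (h2 x hx).imp_right Or.inl
    · exact Or.inr (Or.inr hx)

theorem R_ear {n l : ℕ} {X Y : Set (ℕ × ℕ)} (h : R n 2 ∅ X Y l) (hn : 5 ≤ n) :
    R (n + 1) 2 ∅ (ear n X) (ear n Y) l := by
  induction h with
  | nil X l h1 _ => exact R.nil _ _ (tri_ear h1 hn) (Set.empty_subset _)
  | cons X X' Y l h1 _ h3 h4 ih =>
    exact R.cons _ _ _ _ (tri_ear h1 hn) (Set.empty_subset _) (swap_ear h3 h1 h4.left.1) ih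

theorem Bad.ear {n : ℕ} (h : Bad n 2) (hn5 : 5 ≤ n) : Bad (n + 1) 2 := by
  obtain ⟨T, U, Y, f, S, S', hR, hU, hY, hs, h1, h2, h3, h4, c, c', m, m', hn⟩ := h
  refine ⟨GoodFlip.ear n T, GoodFlip.ear n U, GoodFlip.ear n Y, f, S, S', R_ear hR hn5,
    tri_ear hU hn5, tri_ear hY hn5, swap_ear hs hR.left.1 hY, ?_, Or.inl h2, Or.inl h3,
    not_ear (hU.1 f h3).2 h4, c, c',
    fun a ha => ⟨Or.inl (m a ha).1, not_ear (hY.1 a (m a ha).1).2 (m a ha).2⟩,
    fun a ha => ⟨Or.inl (m' a ha).1, not_ear (hU.1 a (m' a ha).1).2 (m' a ha).2⟩,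
    fun a ha b hb hfree => hn a ha b hb (hfree.mono
      (Set.insert_subset_insert (Set.sdiff_subset_sdiff_left Set.subset_union_left)))⟩
  rintro x ⟨hx | hx, hx' | hx'⟩
  · exact Or.inl (h1 ⟨hx, hx'⟩)
  · exact Or.inr hx'
  · exact Or.inr hx
  · exact Or.inr hx

/-- Crossing as a Boolean test. -/
def cb (e f : ℕ × ℕ) : Bool :=
  decide ((e.1 < f.1 ∧ f.1 < e.2 ∧ e.2 < f.2) ∨ (f.1 < e.1 ∧ e.1 < f.2 ∧ f.2 < e.2))

theorem cb_iff {e f : ℕ × ℕ} : cb e f = true ↔ Cross e f := by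
  simp only [cb, decide_eq_true_eq, Cross]

/-- The short chords of the octagon together with the listed ones. -/
def oct (L : List (ℕ × ℕ)) : List (ℕ × ℕ) :=
  [(0, 1), (1, 2), (2, 3), (3, 4), (4, 5), (5, 6), (6, 7), (0, 7), (0, 2), (1, 3), (2, 4), (3, 5),
    (4, 6), (5, 7), (0, 6), (1, 7)] ++ L

/-- The set of members of a list. -/
def st (L : List (ℕ × ℕ)) : Set (ℕ × ℕ) := {e | e ∈ oct L}

theorem tri_oct (L : List (ℕ × ℕ)) (h0 : ∀ e ∈ oct L, e.1 < e.2 ∧ e.2 < 8)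
    (h1 : ∀ e ∈ oct L, ∀ f ∈ oct L, cb e f = true → ∀ g ∈ oct L, cb e g = true → cb f g = false)
    (h2 : ∀ y < 8, ∀ x < y, (x, y) ∈ oct L ∨ ((oct L).any fun f => (oct L).any fun g =>
      cb (x, y) f && (cb (x, y) g && cb f g)) = true) : IsKTri 8 2 (st L) := by
  refine ⟨h0, crossFree_two.2 fun e he f hf g hg c1 c2 c3 => ?_, ?_⟩
  · have := h1 e he f hf (cb_iff.2 c1) g hg (cb_iff.2 c2)
    rw [cb_iff.2 c3] at this
    exact absurd this (by simp)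
  · rintro ⟨x, y⟩ hxy hy hn hfree
    have h3 := (h2 y hy x hxy).resolve_left hn
    simp only [List.any_eq_true, Bool.and_eq_true] at h3
    obtain ⟨f, hf, g, hg, c1, c2, c3⟩ := h3
    exact crossFree_two.1 hfree _ (Or.inl rfl) _ (Or.inr hf) _ (Or.inr hg) (cb_iff.1 c1)
      (cb_iff.1 c2) (cb_iff.1 c3)

theorem swap_oct (L M : List (ℕ × ℕ)) (e f : ℕ × ℕ)
    (h : e ∈ oct L ∧ f ∉ oct L ∧ f ∈ oct M ∧ e ∉ oct M ∧ (∀ x ∈ oct L, x = e ∨ x ∈ oct M) ∧
      ∀ x ∈ oct M, x = f ∨ x ∈ oct L) : Swap (st L) (st M) :=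
  swap_of h.1 h.2.1 h.2.2.1 h.2.2.2.1 h.2.2.2.2.1 h.2.2.2.2.2

theorem bad_oct : Bad 8 2 := by
  have t0 := tri_oct [(0, 3), (0, 4), (0, 5), (2, 7), (3, 6), (3, 7)] (by decide +kernel)
    (by decide +kernel) (by decide +kernel)
  have t1 := tri_oct [(0, 3), (0, 4), (0, 5), (1, 4), (3, 6), (3, 7)] (by decide +kernel)
    (by decide +kernel) (by decide +kernel)
  have t2 := tri_oct [(0, 3), (0, 4), (0, 5), (1, 4), (3, 6), (1, 6)] (by decide +kernel)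
    (by decide +kernel) (by decide +kernel)
  have t3 := tri_oct [(0, 3), (0, 4), (0, 5), (1, 4), (1, 5), (1, 6)] (by decide +kernel)
    (by decide +kernel) (by decide +kernel)
  have t4 := tri_oct [(2, 5), (0, 4), (0, 5), (1, 4), (1, 5), (1, 6)] (by decide +kernel)
    (by decide +kernel) (by decide +kernel)
  have ty := tri_oct [(1, 4), (0, 4), (0, 5), (2, 7), (3, 6), (3, 7)] (by decide +kernel)
    (by decide +kernel) (by decide +kernel)
  have e := Set.empty_subset (α := ℕ × ℕ)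
  refine ⟨_, _, _, (1, 4), {(2, 7), (3, 6), (3, 7)}, {(1, 5), (1, 6), (2, 5)},
    R.cons _ _ _ _ t0 (e _) (swap_oct _ _ (2, 7) (1, 4) (by decide +kernel))
      (R.cons _ _ _ _ t1 (e _) (swap_oct _ _ (3, 7) (1, 6) (by decide +kernel))
        (R.cons _ _ _ _ t2 (e _) (swap_oct _ _ (3, 6) (1, 5) (by decide +kernel))
          (R.cons _ _ _ _ t3 (e _) (swap_oct _ _ (0, 3) (2, 5) (by decide +kernel))
            (R.nil _ 0 t4 (e _))))), t4, ty,
    swap_oct _ _ (0, 3) (1, 4) (by decide +kernel), ?_, ?_, ?_, ?_, by decide +kernel,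
    by decide +kernel, ?_, ?_, ?_⟩
  · have : ∀ x ∈ oct [(0, 3), (0, 4), (0, 5), (2, 7), (3, 6), (3, 7)],
        x ∈ oct [(2, 5), (0, 4), (0, 5), (1, 4), (1, 5), (1, 6)] →
          x ∈ oct [(1, 4), (0, 4), (0, 5), (2, 7), (3, 6), (3, 7)] := by decide +kernel
    exact fun x hx => this x hx.1 hx.2
  · change _ ∈ oct _
    decide +kernel
  · change _ ∈ oct _
    decide +kernel
  · change _ ∉ oct _
    decide +kernel
  · change ∀ a ∈ _, a ∈ oct _ ∧ a ∉ oct _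
    decide +kernel
  · change ∀ a ∈ _, a ∈ oct _ ∧ a ∉ oct _
    decide +kernel
  · have : ∀ a ∈ ({(2, 7), (3, 6), (3, 7)} : Finset (ℕ × ℕ)),
        ∀ b ∈ ({(1, 5), (1, 6), (2, 5)} : Finset (ℕ × ℕ)),
          ∃ f ∈ oct [(1, 4), (0, 4), (0, 5), (2, 7), (3, 6), (3, 7)],
            ∃ g ∈ oct [(1, 4), (0, 4), (0, 5), (2, 7), (3, 6), (3, 7)],
              f ≠ a ∧ g ≠ a ∧ cb b f = true ∧ cb b g = true ∧ cb f g = true := by decide +kernel
    intro a ha b hb hfree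
    obtain ⟨f, hf, g, hg, n1, n2, c1, c2, c3⟩ := this a ha b hb
    exact crossFree_two.1 hfree _ (Or.inl rfl) _ (Or.inr ⟨hf, n1⟩) _ (Or.inr ⟨hg, n2⟩)
      (cb_iff.1 c1) (cb_iff.1 c2) (cb_iff.1 c3)

theorem bad_two (j : ℕ) : Bad (8 + j) 2 := by
  induction j with
  | zero => exact bad_oct
  | succ j ih => exact ih.ear (by omega)

theorem bad_all (j i : ℕ) : Bad (8 + j + 2 * i) (2 + i) := by
  induction i with
  | zero => exact bad_two j
  | succ i ih => exact ih.cone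

theorem gd_iff (k n : ℕ) : Gd n k ↔ (k ≤ 1 ∨ n ≤ 2 * k + 3) := by
  constructor
  · intro h
    by_contra hc
    obtain ⟨i, rfl⟩ : ∃ i, k = 2 + i := ⟨k - 2, by omega⟩
    obtain ⟨j, rfl⟩ : ∃ j, n = 8 + j + 2 * i := ⟨n - 8 - 2 * i, by omega⟩
    exact (bad_all j i).not h
  · rintro (h | h)
    · interval_cases k
      · exact gd_zero n
      · exact gd_one n
    · by_cases h3 : n = 2 * k + 3
      · exact h3 ▸ gd_three k
      · exact gd_tiny (by omega)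

end Pool.Agent.FS.GoodFlip
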